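import Pool.Agent.Q229.PS.Stm

set_option autoImplicit false

/-! Job F4 of project PS (helper229): correctness of the reduction, assembled. -/

namespace Pool.Agent.Q92.PST

open Pool.Agent.Q229.PS Pool.Agent.NPC

theorem rowL_perm (b : Bool) (ρ : Row) : (rowL b ρ).Perm (rowL true ρ) := by
  unfold rowL
  by_cases h : ρ.1 = ρ.2
  · rw [if_pos h, if_pos h]
  · rw [if_neg h, if_neg h]
    cases b
    · exact List.Perm.swap _ _ _
    · exact List.Perm.refl _

theorem walk_perm (F : List ℕ × ℕ → List Pt)
    (hF : ∀ (u u' : List ℕ) (n : ℕ), u.Perm u' → (F (u, n)).Perm (F (u', n)))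
    {rs : List Row} {us : List (List ℕ)} (h : IsWalk rs us) : ∀ n : ℕ,
    ((us.zipIdx n).flatMap F).Perm (((rs.map (rowL true)).zipIdx n).flatMap F) := by
  unfold IsWalk at h
  induction h with
  | nil => intro n; exact List.Perm.refl _
  | cons hab _ ih =>
    intro n
    obtain ⟨b, rfl⟩ := hab
    rw [List.map_cons, List.zipIdx_cons, List.zipIdx_cons, List.flatMap_cons, List.flatMap_cons]
    exact (hF _ _ _ (rowL_perm b _)).append (ih (n + 1))

theorem mainP_perm (p : Par) {rs : List Row} {us : List (List ℕ)} (h : IsWalk rs us) :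
    (p.mainP us).Perm (p.mainP (rs.map (rowL true))) :=
  walk_perm (fun q => q.1.map (fun x => (x * p.L, (q.2 + 1) * p.L)))
    (fun _ _ _ hu => hu.map _) h 0

/-- the cast of a lattice point -/
def ct (q : Pt) : ℚ × ℚ := ((q.1 : ℚ), (q.2 : ℚ))

theorem ct_inj : Function.Injective ct := by
  rintro ⟨a, b⟩ ⟨c, d⟩ h
  unfold ct at h
  rw [Prod.mk.injEq] at h
  have h1 : a = c := Nat.cast_injective h.1
  have h2 : b = d := Nat.cast_injective h.2
  rw [h1, h2]

theorem stabs_ct (α β γ : ℝ) (a b : Pt) :
    Stabs α β γ (ct a) (ct b) ↔ lin α β γ a * lin α β γ b < 0 := by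
  unfold Stabs ct lin
  push_cast
  exact Iff.rfl

theorem cr_iff (g a b : ℕ) :
    cr g a b ↔ ((a : ℝ) - ((g : ℝ) + 1 / 2)) * ((b : ℝ) - ((g : ℝ) + 1 / 2)) < 0 := by
  have h1 : ∀ a : ℕ, a ≤ g ↔ (a : ℝ) - ((g : ℝ) + 1 / 2) < 0 := by
    intro a
    constructor
    · intro h
      have : (a : ℝ) ≤ g := by exact_mod_cast h
      linarith
    · intro h
      by_contra hc
      have : ((g + 1 : ℕ) : ℝ) ≤ a := by exact_mod_cast (not_le.1 hc)
      push_cast at this
      linarith
  have h2 : ∀ a : ℕ, g < a ↔ 0 < (a : ℝ) - ((g : ℝ) + 1 / 2) := by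
    intro a
    constructor
    · intro h
      have : ((g + 1 : ℕ) : ℝ) ≤ a := by exact_mod_cast h
      push_cast at this
      linarith
    · intro h
      by_contra hc
      have := (h1 a).1 (not_lt.1 hc)
      linarith
  unfold cr
  rw [h1 a, h1 b, h2 a, h2 b, mul_neg_iff]
  tauto

theorem f4 : F4Stm := by
  intro hW4 hN5 hY9 hF1 hF2 φ hφ
  obtain ⟨hok, hfits, hwk⟩ := hF2 φ
  have hinst : (inst φ).1 = (ptsOf φ).map ct := rfl
  have hinst2 : (inst φ).2 = ((parOf φ).K : ℤ) := rfl
  constructor
  · intro hsat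
    obtain ⟨us, hus1, hus2⟩ := (hW4 φ hφ).1 hsat
    refine ⟨?_, ?_, ?_⟩
    · rw [hinst]
      exact (hF1 _ _ hok hfits).map ct_inj
    · rw [hinst, List.length_map]
      unfold ptsOf Par.pts Par.rest
      simp only [List.length_append, List.length_cons]
      omega
    · rw [hinst, hinst2]
      refine ⟨((parOf φ).mainP us ++ (parOf φ).rest).map ct, ?_, ?_⟩
      · apply List.Perm.map
        unfold ptsOf Par.pts
        exact (mainP_perm _ hus1).append_right _
      · intro α β γ _
        have h1 := hY9 _ _ (hwk us hus1 hus2) α β γ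
        rw [adjC_map]
        have h2 : adjC (fun a b => Stabs α β γ (ct a) (ct b))
            ((parOf φ).mainP us ++ (parOf φ).rest) =
            sc (lin α β γ) ((parOf φ).mainP us ++ (parOf φ).rest) := by
          unfold sc
          exact adjC_congr _ fun a _ b _ => stabs_ct α β γ a b
        rw [h2]
        exact_mod_cast h1
  · rintro ⟨-, -, P', hP', hk⟩
    rw [hinst] at hP'
    rw [hinst2] at hk
    apply (hW4 φ hφ).2
    obtain ⟨P, hP, rfl⟩ : ∃ P : List Pt, P.Perm (ptsOf φ) ∧ P' = P.map ct := by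
      obtain ⟨g, hg⟩ := ct_inj.hasLeftInverse
      refine ⟨P'.map g, ?_, ?_⟩
      · have h1 := hP'.map g
        rw [List.map_map, hg.comp_eq_id, List.map_id] at h1
        exact h1
      · have h2 : P'.map (ct ∘ g) = P'.map id := by
          apply List.map_congr_left
          intro x hx
          obtain ⟨y, -, rfl⟩ := List.mem_map.1 (hP'.mem_iff.1 hx)
          exact congrArg ct (hg y)
        rw [List.map_map, h2, List.map_id]
    have hlow : Low (parOf φ) (rows φ) P := by
      refine ⟨hok, hfits, hP, ?_, ?_⟩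
      · intro g
        have h1 := hk 1 0 ((g : ℝ) + 1 / 2) (Or.inl one_ne_zero)
        rw [adjC_map] at h1
        have h2 : adjC (fun a b => Stabs 1 0 ((g : ℝ) + 1 / 2) (ct a) (ct b)) P =
            adjC (fun a b => cr g a.1 b.1) P := by
          refine adjC_congr _ fun a _ b _ => ?_
          rw [stabs_ct, cr_iff]
          unfold lin
          rw [one_mul, zero_mul, add_zero, one_mul, zero_mul, add_zero]
        rw [h2] at h1
        exact_mod_cast h1
      · intro g
        have h1 := hk 0 1 ((g : ℝ) + 1 / 2) (Or.inr one_ne_zero)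
        rw [adjC_map] at h1
        have h2 : adjC (fun a b => Stabs 0 1 ((g : ℝ) + 1 / 2) (ct a) (ct b)) P =
            adjC (fun a b => cr g a.2 b.2) P := by
          refine adjC_congr _ fun a _ b _ => ?_
          rw [stabs_ct, cr_iff]
          unfold lin
          rw [one_mul, zero_mul, zero_add, one_mul, zero_mul, zero_add]
        rw [h2] at h1
        exact_mod_cast h1
    exact hN5 _ _ _ hlow

end Pool.Agent.Q92.PST
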