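import Pool.Agent.Q229.PS.Stm

set_option autoImplicit false

/-! Job Y0 of project PS (helper229): only the corners of the path matter. -/

namespace Pool.Agent.Q92.PST

open Pool.Agent.Q229.PS

/-- replacing `l` by `l'` does not decrease the number of sign changes -/
def Rel (f : Pt → ℝ) (l l' : List Pt) : Prop :=
  ∀ M N : List Pt, sc f (M ++ (l ++ N)) ≤ sc f (M ++ (l' ++ N))

theorem Rel.refl (f : Pt → ℝ) (l : List Pt) : Rel f l l := fun _ _ => le_rfl

theorem Rel.append {f : Pt → ℝ} {l1 l1' l2 l2' : List Pt} (h1 : Rel f l1 l1')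
    (h2 : Rel f l2 l2') : Rel f (l1 ++ l2) (l1' ++ l2') := by
  intro M N
  have e1 := h1 M (l2 ++ N)
  have e2 := h2 (M ++ l1') N
  simp only [List.append_assoc] at e1 e2 ⊢
  exact e1.trans e2

theorem Rel.flatMap {f : Pt → ℝ} {α : Type} (u v : α → List Pt) (l : List α)
    (h : ∀ i ∈ l, Rel f (u i) (v i)) : Rel f (l.flatMap u) (l.flatMap v) := by
  induction l with
  | nil => exact Rel.refl f _
  | cons a l ih =>
    rw [List.flatMap_cons, List.flatMap_cons]
    exact (h a (by simp)).append (ih fun i hi => h i (List.mem_cons_of_mem _ hi))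

theorem rel_core {f : Pt → ℝ} {l : List Pt} {a b : Pt} (l1 l2 : List Pt) (h1 : l = a :: l1)
    (h2 : l = l2 ++ [b]) (h3 : sc f l ≤ sc f [a, b]) : Rel f l [a, b] := by
  intro M N
  unfold sc at h3 ⊢
  have e1 := adjC_append (P := fun p q => f p * f q < 0) M a (l1 ++ N)
  have e2 := adjC_append (P := fun p q => f p * f q < 0) l2 b N
  have e3 := adjC_append (P := fun p q => f p * f q < 0) M a (b :: N)
  have e4 := adjC_append (P := fun p q => f p * f q < 0) [a] b N
  have e5 : M ++ (l ++ N) = M ++ a :: (l1 ++ N) := by rw [h1, List.cons_append]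
  have e6 : a :: (l1 ++ N) = l2 ++ b :: N := by
    rw [← List.cons_append, ← h1, h2, List.append_assoc, List.singleton_append]
  have e7 : M ++ ([a, b] ++ N) = M ++ a :: (b :: N) := rfl
  have e8 : [a] ++ b :: N = a :: b :: N := rfl
  have e9 : [a] ++ [b] = [a, b] := rfl
  rw [e5, e1, e6, e2, e7, e3, ← e8, e4, e9, ← h2]
  omega

/-- sign changes of a monotone sequence -/
theorem mono_sc (g : ℕ → ℝ) (hg : ∀ i, g i ≤ g (i + 1)) (n : ℕ) :
    adjC (fun i j => g i * g j < 0) (List.range (n + 1)) ≤
      adjC (fun i j => g i * g j < 0) [0, n] := by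
  classical
  have hmono : Monotone g := monotone_nat_of_le_succ hg
  induction n with
  | zero => simp [adjC_cons_cons]
  | succ n ih =>
    rw [List.range_succ (n := n + 1)]
    have e1 : List.range (n + 1) ++ [n + 1] = List.range n ++ n :: [n + 1] := by
      rw [List.range_succ, List.append_assoc, List.singleton_append]
    have e2 := adjC_append (P := fun i j => g i * g j < 0) (List.range n) n [n + 1]
    have e3 : List.range n ++ [n] = List.range (n + 1) := List.range_succ.symm
    rw [e1, e2, e3]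
    have e4 : adjC (fun i j => g i * g j < 0) [n, n + 1] = if g n * g (n + 1) < 0 then 1 else 0 := by
      rw [adjC_cons_cons, adjC_singleton, add_zero]
    have e5 : ∀ k, adjC (fun i j => g i * g j < 0) [0, k] = if g 0 * g k < 0 then 1 else 0 := by
      intro k
      rw [adjC_cons_cons, adjC_singleton, add_zero]
    rw [e5] at ih ⊢
    rw [e4]
    have h0n : g 0 ≤ g n := hmono (Nat.zero_le n)
    have hn1 : g n ≤ g (n + 1) := hg n
    by_cases h1 : g n * g (n + 1) < 0
    · have h2 : g n < 0 ∧ 0 < g (n + 1) := by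
        rcases mul_neg_iff.1 h1 with h | h
        · linarith [h.1, h.2]
        · exact h
      have h3 : ¬ g 0 * g n < 0 := by
        have : 0 < g 0 * g n := mul_pos_of_neg_of_neg (by linarith [h2.1]) h2.1
        linarith
      have h4 : g 0 * g (n + 1) < 0 := mul_neg_of_neg_of_pos (by linarith [h2.1]) h2.2
      rw [if_neg h3] at ih
      rw [if_pos h1, if_pos h4]
      omega
    · rw [if_neg h1]
      by_cases h3 : g 0 * g n < 0
      · have h2 : g 0 < 0 ∧ 0 < g n := by
          rcases mul_neg_iff.1 h3 with h | h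
          · linarith [h.1, h.2]
          · exact h
        have h4 : g 0 * g (n + 1) < 0 := mul_neg_of_neg_of_pos h2.1 (by linarith [h2.2])
        rw [if_pos h3] at ih
        rw [if_pos h4]
        omega
      · rw [if_neg h3] at ih
        omega

/-- sign changes of an affine sequence -/
theorem aff_sc (g : ℕ → ℝ) (c d : ℝ) (hg : ∀ i : ℕ, g i = c + i * d) (n : ℕ) :
    adjC (fun i j => g i * g j < 0) (List.range (n + 1)) ≤
      adjC (fun i j => g i * g j < 0) [0, n] := by
  rcases le_total 0 d with hd | hd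
  · exact mono_sc g (fun i => by rw [hg, hg]; push_cast; nlinarith) n
  · have h := mono_sc (fun i => - g i) (fun i => by rw [hg, hg]; push_cast; nlinarith) n
    simp only [neg_mul_neg] at h
    exact h

theorem run_rel (f : Pt → ℝ) (q : ℕ → Pt) (n : ℕ) (hn : 1 ≤ n) (c d : ℝ)
    (hg : ∀ i : ℕ, f (q i) = c + i * d) :
    Rel f ((List.range n).map q) [q 0, q (n - 1)] ∧
      Rel f ((List.range n).map q).reverse [q (n - 1), q 0] := by
  obtain ⟨k, rfl⟩ : ∃ k, n = k + 1 := ⟨n - 1, by omega⟩
  have h1 : sc f ((List.range (k + 1)).map q) ≤ sc f [q 0, q k] := by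
    have h := aff_sc (fun i => f (q i)) c d hg k
    have e1 := adjC_map (P := fun a b => f a * f b < 0) q (List.range (k + 1))
    have e2 := adjC_map (P := fun a b => f a * f b < 0) q [0, k]
    unfold sc
    have e3 : [q 0, q k] = [0, k].map q := rfl
    rw [e1, e3, e2]
    exact h
  have hs : ∀ a b : Pt, f a * f b < 0 ↔ f b * f a < 0 := fun a b => by rw [mul_comm]
  have h2 : sc f ((List.range (k + 1)).map q).reverse ≤ sc f [q k, q 0] := by
    have e1 := adjC_reverse (P := fun a b => f a * f b < 0) hs ((List.range (k + 1)).map q)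
    have e2 := adjC_reverse (P := fun a b => f a * f b < 0) hs [q 0, q k]
    have e3 : [q 0, q k].reverse = [q k, q 0] := rfl
    unfold sc at h1 ⊢
    rw [e1, ← e3, e2]
    exact h1
  have a1 : (List.range (k + 1)).map q = q 0 :: (List.range k).map (fun i => q (i + 1)) := by
    rw [List.range_succ_eq_map, List.map_cons, List.map_map]
    rfl
  have a2 : (List.range (k + 1)).map q = (List.range k).map q ++ [q k] := by
    rw [List.range_succ, List.map_append, List.map_singleton]
  have a3 : ((List.range (k + 1)).map q).reverse = q k :: ((List.range k).map q).reverse := by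
    rw [a2, List.reverse_append]
    rfl
  have a4 : ((List.range (k + 1)).map q).reverse =
      ((List.range k).map (fun i => q (i + 1))).reverse ++ [q 0] := by
    rw [a1, List.reverse_cons]
  have a5 : k + 1 - 1 = k := rfl
  rw [a5]
  exact ⟨rel_core _ _ a1 a2 h1, rel_core _ _ a3 a4 h2⟩

theorem zr_rel (f : Pt → ℝ) (r : ℕ → List Pt) (a b : ℕ → Pt) (n : ℕ)
    (h : ∀ i, Rel f (r i) [a i, b i] ∧ Rel f (r i).reverse [b i, a i]) :
    Rel f (zr r n) (zg a b n) := by
  unfold zr zg
  apply Rel.flatMap
  intro i _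
  by_cases hi : i % 2 = 0
  · rw [if_pos hi, if_pos hi]
    exact (h i).1
  · rw [if_neg hi, if_neg hi]
    exact (h i).2

theorem hrun_rel (α β γ : ℝ) (x0 n y : ℕ) (hn : 1 ≤ n) :
    Rel (lin α β γ) (hrun x0 n y) [(x0, y), (x0 + (n - 1), y)] ∧
      Rel (lin α β γ) (hrun x0 n y).reverse [(x0 + (n - 1), y), (x0, y)] := by
  have h := run_rel (lin α β γ) (fun i => (x0 + i, y)) n hn (α * x0 + β * y - γ) α (fun i => by
    unfold lin
    push_cast
    ring)
  exact h

theorem vrun_rel (α β γ : ℝ) (x y0 n : ℕ) (hn : 1 ≤ n) :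
    Rel (lin α β γ) (vrun x y0 n) [(x, y0), (x, y0 + (n - 1))] ∧
      Rel (lin α β γ) (vrun x y0 n).reverse [(x, y0 + (n - 1)), (x, y0)] := by
  have h := run_rel (lin α β γ) (fun i => (x, y0 + i)) n hn (α * x + β * y0 - γ) β (fun i => by
    unfold lin
    push_cast
    ring)
  exact h

theorem y0 : Y0Stm := by
  intro p hp M α β γ
  have hL : 4 ≤ p.L := by
    have := hp.hL
    omega
  have h1 : ∀ j, Rel (lin α β γ) (p.zoneS j) (p.cS j) := by
    intro j
    refine zr_rel _ _ _ _ _ fun i => ?_
    have h := hrun_rel α β γ (j * p.L + 1) (p.L - 1) (p.Y + 1 + i) (by omega)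
    have e : j * p.L + 1 + (p.L - 1 - 1) = j * p.L + p.L - 1 := by omega
    rw [e] at h
    exact h
  have h2 : Rel (lin α β γ) p.rowsV p.cV := by
    refine zr_rel _ _ _ _ _ fun i => ?_
    have h := hrun_rel α β γ 0 (p.W + 1) ((i + 1) * p.YY) (by omega)
    have e : 0 + (p.W + 1 - 1) = p.W := by omega
    rw [e] at h
    refine ⟨h.2, ?_⟩
    rw [List.reverse_reverse]
    exact h.1
  have h3 : ∀ k, Rel (lin α β γ) (p.zoneT k) (p.cT k) := by
    intro k
    refine zr_rel _ _ _ _ _ fun i => ?_
    have h := vrun_rel α β γ (p.X + 1 + i) (k * p.L + 1) (p.L - 1) (by omega)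
    have e : k * p.L + 1 + (p.L - 1 - 1) = k * p.L + p.L - 1 := by omega
    rw [e] at h
    refine ⟨h.2, ?_⟩
    rw [List.reverse_reverse]
    exact h.1
  have h4 : Rel (lin α β γ) p.colsH p.cH := by
    refine zr_rel _ _ _ _ _ fun i => ?_
    have h := vrun_rel α β γ ((i + 1) * p.XX) 0 (p.H + 1) (by omega)
    have e : 0 + (p.H + 1 - 1) = p.H := by omega
    rw [e] at h
    exact h
  have h5 : Rel (lin α β γ) ((List.range (p.m + 2)).flatMap p.zoneS)
      ((List.range (p.m + 2)).flatMap p.cS) := Rel.flatMap _ _ _ fun j _ => h1 j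
  have h6 : Rel (lin α β γ) ((List.range p.R).flatMap (fun k => p.zoneT (p.R - k)))
      ((List.range p.R).flatMap (fun k => p.cT (p.R - k))) := Rel.flatMap _ _ _ fun k _ => h3 _
  have h7 : Rel (lin α β γ) p.rest p.cRest := by
    have e1 : p.rest = (List.range (p.m + 2)).flatMap p.zoneS ++ ([(p.W, p.Y + p.D + 1)] ++
        (p.rowsV ++ ((List.range p.R).flatMap (fun k => p.zoneT (p.R - k)) ++
          ([(p.X + p.D + 1, 0)] ++ p.colsH)))) := rfl
    have e2 : p.cRest = (List.range (p.m + 2)).flatMap p.cS ++ ([(p.W, p.Y + p.D + 1)] ++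
        (p.cV ++ ((List.range p.R).flatMap (fun k => p.cT (p.R - k)) ++
          ([(p.X + p.D + 1, 0)] ++ p.cH)))) := by
      unfold Par.cRest Par.cR1 Par.cR2
      simp only [List.append_assoc, List.singleton_append]
    rw [e1, e2]
    exact h5.append ((Rel.refl _ _).append (h2.append (h6.append ((Rel.refl _ _).append h4))))
  have h8 := h7 M []
  rw [List.append_nil, List.append_nil] at h8
  exact h8

end Pool.Agent.Q92.PST
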