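import Pool.Agent.Q229.PS.Stm

set_option autoImplicit false

/-! Job Y7 of project PS (helper229): almost horizontal lines which meet zone `k`. -/

namespace Pool.Agent.Q92.PST

open Pool.Agent.Q229.PS

theorem mem_zg {a b : ℕ → Pt} {n : ℕ} {x : Pt} (h : x ∈ zg a b n) :
    ∃ i < n, x = a i ∨ x = b i := by
  unfold zg at h
  rw [List.mem_flatMap] at h
  obtain ⟨i, hi, hx⟩ := h
  refine ⟨i, List.mem_range.1 hi, ?_⟩
  split_ifs at hx
  · simp only [List.mem_cons, List.not_mem_nil, or_false] at hx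
    exact hx
  · simp only [List.mem_cons, List.not_mem_nil, or_false] at hx
    exact hx.symm

theorem sc_app (f : Pt → ℝ) (l : List Pt) (x : Pt) (l' : List Pt) :
    sc f (l ++ x :: l') = sc f (l ++ [x]) + sc f (x :: l') := adjC_append _ _ _

theorem sc_append_le (f : Pt → ℝ) (l l' : List Pt) : sc f (l ++ l') ≤ sc f l + 1 + sc f l' :=
  adjC_append_le _ _

theorem comb (f : Pt → ℝ) (N P C N2 : List Pt) (z : Pt) (Hc : List Pt) (n m : ℕ)
    (hN : ∀ a ∈ N, f a < 0) (hP : ∀ a ∈ P, 0 < f a) (hPne : P ≠ []) (hN2 : ∀ a ∈ N2, f a < 0)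
    (hz : f z < 0) (hC : ∀ x y : Pt, 0 < f x → f y < 0 → sc f (x :: (C ++ [y])) ≤ n)
    (hH : sc f (z :: Hc) ≤ m) :
    sc f (N ++ (P ++ (C ++ (N2 ++ z :: Hc)))) ≤ 1 + n + m := by
  obtain ⟨P', x, rfl⟩ : ∃ P' x, P = P' ++ [x] :=
    ⟨P.dropLast, P.getLast hPne, (List.dropLast_append_getLast hPne).symm⟩
  have hx : 0 < f x := hP x (by simp)
  obtain ⟨y, N3, hy⟩ : ∃ y N3, N2 ++ [z] = y :: N3 := by
    cases N2 with
    | nil => exact ⟨z, [], rfl⟩
    | cons a l => exact ⟨a, l ++ [z], rfl⟩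
  have hall : ∀ a ∈ N2 ++ [z], f a < 0 := by
    intro a ha
    rcases List.mem_append.1 ha with h | h
    · exact hN2 a h
    · rw [List.mem_singleton.1 h]
      exact hz
  have hfy : f y < 0 := hall y (by rw [hy]; simp)
  have e1 : N ++ (P' ++ [x] ++ (C ++ (N2 ++ z :: Hc))) =
      (N ++ P') ++ x :: (C ++ (N2 ++ z :: Hc)) := by simp
  have e2 : N2 ++ z :: Hc = y :: (N3 ++ Hc) := by
    have : N2 ++ z :: Hc = (N2 ++ [z]) ++ Hc := by simp
    rw [this, hy]
    rfl
  have e3 : x :: (C ++ (N2 ++ z :: Hc)) = (x :: C) ++ y :: (N3 ++ Hc) := by rw [e2]; rfl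
  have e4 : sc f ((x :: C) ++ y :: (N3 ++ Hc)) = sc f (x :: (C ++ [y])) + sc f (N2 ++ z :: Hc) := by
    rw [sc_app, ← e2]
    rfl
  have e5 : sc f (N2 ++ z :: Hc) = sc f (z :: Hc) := by
    rw [sc_app, sc_neg_list f _ hall, zero_add]
  have e6 : sc f ((N ++ P') ++ [x]) ≤ 1 := by
    have h1 := sc_append_le f N (P' ++ [x])
    rw [sc_neg_list f N hN, sc_pos f _ hP] at h1
    rw [List.append_assoc]
    exact h1
  rw [e1, sc_app, e3, e4, e5]
  have := hC x y hx hfy
  omega

theorem mainP_split (p : Par) (us : List (List ℕ)) (k : ℕ) (hk : k ≤ us.length) :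
    p.mainP us = (us.take k).zipIdx.flatMap
        (fun q => q.1.map (fun x => (x * p.L, (q.2 + 1) * p.L))) ++
      ((us.drop k).zipIdx k).flatMap (fun q => q.1.map (fun x => (x * p.L, (q.2 + 1) * p.L))) := by
  unfold Par.mainP
  conv_lhs => rw [← List.take_append_drop k us]
  rw [List.zipIdx_append, List.flatMap_append, List.length_take, min_eq_left hk, zero_add]

theorem mem_zip {us : List (List ℕ)} {q : List ℕ × ℕ} {n : ℕ} (h : q ∈ us.zipIdx n) :
    q.1 ∈ us ∧ n ≤ q.2 ∧ q.2 < n + us.length := by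
  obtain ⟨u, i⟩ := q
  have h1 := List.mem_zipIdx h
  exact ⟨h1.2.2 ▸ List.getElem_mem _, h1.1, h1.2.1⟩

theorem y7 : Y7Stm := by
  intro hY1 p us hW f y0 hLH k hk1 hkR hy1 hy2
  obtain ⟨hp, hlen, hus, -, -⟩ := hW
  obtain ⟨hF1, hF2, hF3, -⟩ := hLH
  have hL : 4 ≤ p.L := by
    have := hp.hL
    omega
  have hTb := hp.hTb
  have hT := hp.hT
  have hX := hp.hX
  have hYY := hp.hYY
  have hLr : (4 : ℝ) ≤ p.L := by exact_mod_cast hL
  have hWL : p.W = p.m * p.L + 2 * p.L := by
    unfold Par.W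
    ring
  have hWX : p.W ≤ p.X := le_trans (Nat.le_mul_of_pos_left _ (by omega)) hX
  have hWpos : 1 ≤ p.W := by
    rw [hWL]
    have := Nat.zero_le (p.m * p.L)
    omega
  have hYYb : p.Y + 1 ≤ p.YY := by
    have h1 : 1 * (p.Y + p.D + 2) ≤ 4 * p.W * (p.Y + p.D + 2) := Nat.mul_le_mul_right _ (by omega)
    omega
  -- heights
  have hneg : ∀ a : Pt, a.1 ≤ p.X + p.D + 1 → a.2 ≤ k * p.L → f a < 0 := by
    intro a h1 h2
    apply (hF1 a h1).2
    have h3 : (a.2 : ℝ) ≤ ((k * p.L : ℕ) : ℝ) := by exact_mod_cast h2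
    push_cast at h3
    linarith
  have hpos : ∀ a : Pt, a.1 ≤ p.X + p.D + 1 → k * p.L + p.L ≤ a.2 → 0 < f a := by
    intro a h1 h2
    apply (hF1 a h1).1
    have h3 : ((k * p.L + p.L : ℕ) : ℝ) ≤ (a.2 : ℝ) := by exact_mod_cast h2
    push_cast at h3
    linarith
  have hmul : ∀ i j : ℕ, i ≤ j → i * p.L ≤ j * p.L := fun i j h => Nat.mul_le_mul_right _ h
  -- the walker
  have hwalk : ∀ q : List ℕ × ℕ, q.1 ∈ us → ∀ x ∈ q.1, x * p.L ≤ p.X + p.D + 1 := by
    intro q hq x hx
    have h1 := (hus q.1 hq).2.2 x hx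
    have h2 := hmul x (p.m + 1) h1
    have h3 : (p.m + 1) * p.L = p.m * p.L + p.L := by ring
    omega
  have hA1 : ∀ a ∈ (us.take k).zipIdx.flatMap
      (fun q => q.1.map (fun x => (x * p.L, (q.2 + 1) * p.L))), f a < 0 := by
    intro a ha
    obtain ⟨q, hq, hq2⟩ := List.mem_flatMap.1 ha
    obtain ⟨x, hx, rfl⟩ := List.mem_map.1 hq2
    obtain ⟨h1, -, h2⟩ := mem_zip hq
    rw [List.length_take] at h2
    exact hneg _ (hwalk q (List.mem_of_mem_take h1) x hx) (hmul _ _ (by omega))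
  have hA2 : ∀ a ∈ ((us.drop k).zipIdx k).flatMap
      (fun q => q.1.map (fun x => (x * p.L, (q.2 + 1) * p.L))), 0 < f a := by
    intro a ha
    obtain ⟨q, hq, hq2⟩ := List.mem_flatMap.1 ha
    obtain ⟨x, hx, rfl⟩ := List.mem_map.1 hq2
    obtain ⟨h1, h2, -⟩ := mem_zip hq
    refine hpos _ (hwalk q (List.mem_of_mem_drop h1) x hx) ?_
    have h3 := hmul (k + 1) (q.2 + 1) (by omega)
    have h4 : (k + 1) * p.L = k * p.L + p.L := by ring
    change k * p.L + p.L ≤ (q.2 + 1) * p.L
    omega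
  -- the first corners
  have hR1 : ∀ a ∈ p.cR1, 0 < f a := by
    intro a ha
    unfold Par.cR1 at ha
    rcases List.mem_append.1 ha with h | h
    · obtain ⟨j, hj, hj2⟩ := List.mem_flatMap.1 h
      have hj' := List.mem_range.1 hj
      have h1 := hmul (j + 1) (p.m + 2) (by omega)
      have h2 : (j + 1) * p.L = j * p.L + p.L := by ring
      have h3 : (p.m + 2) * p.L = p.m * p.L + 2 * p.L := by ring
      obtain ⟨i, hi, rfl | rfl⟩ := mem_zg hj2
      · exact hF2 _ (by change p.Y + 1 ≤ p.Y + 1 + i; omega) (by change j * p.L + 1 ≤ p.W; omega)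
      · exact hF2 _ (by change p.Y + 1 ≤ p.Y + 1 + i; omega)
          (by change j * p.L + p.L - 1 ≤ p.W; omega)
    · rw [List.mem_singleton.1 h]
      exact hF2 _ (by change p.Y + 1 ≤ p.Y + p.D + 1; omega) le_rfl
  have hV : ∀ a ∈ p.cV, 0 < f a := by
    intro a ha
    obtain ⟨i, hi, h⟩ := mem_zg ha
    have h1 : p.YY ≤ (i + 1) * p.YY := Nat.le_mul_of_pos_left _ (by omega)
    rcases h with rfl | rfl
    · exact hF2 _ (by change p.Y + 1 ≤ (i + 1) * p.YY; omega) le_rfl
    · exact hF2 _ (by change p.Y + 1 ≤ (i + 1) * p.YY; omega) (Nat.zero_le _)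
  have hTpos : ∀ k', k + 1 ≤ k' → ∀ a ∈ p.cT k', 0 < f a := by
    intro k' hk' a ha
    have h1 := hmul (k + 1) k' hk'
    have h2 : (k + 1) * p.L = k * p.L + p.L := by ring
    obtain ⟨i, hi, rfl | rfl⟩ := mem_zg ha
    · exact hpos _ (by change p.X + 1 + i ≤ p.X + p.D + 1; omega)
        (by change k * p.L + p.L ≤ k' * p.L + p.L - 1; omega)
    · exact hpos _ (by change p.X + 1 + i ≤ p.X + p.D + 1; omega)
        (by change k * p.L + p.L ≤ k' * p.L + 1; omega)
  have hTneg : ∀ k', k' + 1 ≤ k → ∀ a ∈ p.cT k', f a < 0 := by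
    intro k' hk' a ha
    have h1 := hmul (k' + 1) k hk'
    have h2 : (k' + 1) * p.L = k' * p.L + p.L := by ring
    obtain ⟨i, hi, rfl | rfl⟩ := mem_zg ha
    · exact hneg _ (by change p.X + 1 + i ≤ p.X + p.D + 1; omega)
        (by change k' * p.L + p.L - 1 ≤ k * p.L; omega)
    · exact hneg _ (by change p.X + 1 + i ≤ p.X + p.D + 1; omega)
        (by change k' * p.L + 1 ≤ k * p.L; omega)
  -- the ranges
  have hrange : (List.range p.R).flatMap (fun i => p.cT (p.R - i)) =
      (List.range (p.R - k)).flatMap (fun i => p.cT (p.R - i)) ++ (p.cT k ++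
        (List.range (k - 1)).flatMap (fun i => p.cT (k - 1 - i))) := by
    have e1 : p.R = (p.R - k) + (1 + (k - 1)) := by omega
    have e2 : List.range p.R = List.range (p.R - k) ++
        (List.range (1 + (k - 1))).map (fun i => p.R - k + i) := by
      conv_lhs => rw [e1]
      exact List.range_add
    have e3 : List.range (1 + (k - 1)) = 0 :: (List.range (k - 1)).map (fun i => i + 1) := by
      rw [add_comm 1 (k - 1), List.range_succ_eq_map]
    rw [e2, List.flatMap_append, e3, List.map_cons, List.flatMap_cons, List.map_map,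
      List.flatMap_map]
    have e4 : p.R - (p.R - k + 0) = k := by omega
    rw [e4]
    congr 2
    apply List.flatMap_congr
    intro i hi
    have hi' := List.mem_range.1 hi
    have e5 : p.R - ((fun i => p.R - k + i) ∘ fun i => i + 1) i = k - 1 - i := by
      change p.R - (p.R - k + (i + 1)) = k - 1 - i
      omega
    rw [e5]
  have hlist : p.mainP us ++ p.cRest =
      (us.take k).zipIdx.flatMap (fun q => q.1.map (fun x => (x * p.L, (q.2 + 1) * p.L))) ++
      ((((us.drop k).zipIdx k).flatMap (fun q => q.1.map (fun x => (x * p.L, (q.2 + 1) * p.L))) ++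
        (p.cR1 ++ (p.cV ++ (List.range (p.R - k)).flatMap (fun i => p.cT (p.R - i))))) ++
      (p.cT k ++ ((List.range (k - 1)).flatMap (fun i => p.cT (k - 1 - i)) ++
        (p.X + p.D + 1, 0) :: p.cH))) := by
    rw [mainP_split p us k (by omega)]
    unfold Par.cRest Par.cR2
    rw [hrange]
    simp only [List.append_assoc]
  have hK : p.K = 1 + p.D + (p.T - 1) := by
    unfold Par.K
    omega
  rw [hlist, hK]
  have hk0 : (1 : ℝ) ≤ k := by exact_mod_cast hk1
  refine comb f _ _ _ _ _ _ _ _ hA1 ?_ ?_ ?_ ?_ ?_ ?_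
  · intro a ha
    rcases List.mem_append.1 ha with h | h
    · exact hA2 a h
    rcases List.mem_append.1 h with h | h
    · exact hR1 a h
    rcases List.mem_append.1 h with h | h
    · exact hV a h
    obtain ⟨i, hi, hi2⟩ := List.mem_flatMap.1 h
    have hi' := List.mem_range.1 hi
    exact hTpos _ (by omega) a hi2
  · unfold Par.cR1
    simp
  · intro a ha
    obtain ⟨i, hi, hi2⟩ := List.mem_flatMap.1 ha
    have hi' := List.mem_range.1 hi
    exact hTneg _ (by omega) a hi2
  · exact hneg _ le_rfl (Nat.zero_le _)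
  · -- the zone
    intro x y hx hy
    have h1 := (hY1 (fun q => - f q) (fun i => (p.X + 1 + i, k * p.L + p.L - 1))
      (fun i => (p.X + 1 + i, k * p.L + 1)) p.D).1 x y hp.hD (by linarith) (by linarith) ?_
    · rw [sc_neg'] at h1
      exact h1
    · by_cases hc : y0 + 1 / 4 ≤ (k * p.L : ℝ) + p.L - 1
      · left
        intro i hi
        have h2 : 0 < f (p.X + 1 + i, k * p.L + p.L - 1) := by
          apply (hF1 _ (by change p.X + 1 + i ≤ p.X + p.D + 1; omega)).1
          have h3 : ((k * p.L + p.L - 1 : ℕ) : ℝ) = (k * p.L : ℝ) + p.L - 1 := by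
            rw [Nat.cast_sub (by omega)]
            push_cast
            ring
          rw [h3]
          exact hc
        linarith
      · right
        intro i hi
        have h2 : f (p.X + 1 + i, k * p.L + 1) < 0 := by
          apply (hF1 _ (by change p.X + 1 + i ≤ p.X + p.D + 1; omega)).2
          push_cast
          linarith
        linarith
  · -- the full columns
    have h00 : f (0, 0) < 0 := hneg _ (Nat.zero_le _) (Nat.zero_le _)
    have h0H : 0 < f (0, p.H) := by
      apply (hF1 _ (Nat.zero_le _)).1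
      have h1 := hmul (k + 1) (p.R + 1) (by omega)
      have h2 : ((k + 1) * p.L : ℝ) ≤ ((p.H : ℕ) : ℝ) := by
        unfold Par.H
        exact_mod_cast h1
      change y0 + 1 / 4 ≤ ((p.H : ℕ) : ℝ)
      linarith
    have h1 := (hY1 f (fun i => ((i + 1) * p.XX, 0)) (fun i => ((i + 1) * p.XX, p.H))
      (p.T - 1)).1 (p.X + p.D + 1, 0) (0, p.H) (by omega) (hneg _ le_rfl (Nat.zero_le _)) h0H
      (hF3 h00 h0H)
    have h2 : sc f ((p.X + p.D + 1, 0) :: p.cH) ≤
        sc f ((p.X + p.D + 1, 0) :: (p.cH ++ [(0, p.H)])) := by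
      have h3 := adjC_add_le (P := fun a b => f a * f b < 0) ((p.X + p.D + 1, 0) :: p.cH)
        [(0, p.H)]
      unfold sc
      rw [List.cons_append] at h3
      omega
    exact h2.trans h1

end Pool.Agent.Q92.PST
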